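import Mathlib
import Pool.Agent.TH407.MV.Defs

/-!
# MV-1: non-stationary phase, two integrations by parts
-/

set_option autoImplicit false

namespace Pool.Agent.TH999.MV

open MeasureTheory Set Complex
open scoped ENNReal NNReal Real ComplexConjugate
open Pool.Agent.TH407.MV

theorem zero_left {α β : ℝ} {A A1 : ℝ → ℂ} (hA : ∀ x, HasDerivAt A (A1 x) x)
    (hA1c : Continuous A1) (h0 : ∀ x, x ∉ Icc α β → A x = 0) : A α = 0 ∧ A1 α = 0 := by
  have hAc : Continuous A := continuous_iff_continuousAt.2 fun x => (hA x).continuousAt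
  have h1 : Set.EqOn A (fun _ => 0) (Iio α) := fun x hx => h0 x fun h => absurd h.1 (not_le.2 hx)
  have h2 : Set.EqOn A1 (fun _ => 0) (Iio α) := by
    intro x hx
    have h3 : A =ᶠ[nhds x] fun _ => 0 := by
      filter_upwards [isOpen_Iio.mem_nhds hx] with y hy
      exact h1 hy
    exact (hA x).unique ((hasDerivAt_const x (0:ℂ)).congr_of_eventuallyEq h3)
  have h4 := h1.closure hAc continuous_const
  have h5 := h2.closure hA1c continuous_const
  rw [closure_Iio] at h4 h5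
  exact ⟨h4 self_mem_Iic, h5 self_mem_Iic⟩

theorem zero_right {α β : ℝ} {A A1 : ℝ → ℂ} (hA : ∀ x, HasDerivAt A (A1 x) x)
    (hA1c : Continuous A1) (h0 : ∀ x, x ∉ Icc α β → A x = 0) : A β = 0 ∧ A1 β = 0 := by
  have hAc : Continuous A := continuous_iff_continuousAt.2 fun x => (hA x).continuousAt
  have h1 : Set.EqOn A (fun _ => 0) (Ioi β) := fun x hx => h0 x fun h => absurd h.2 (not_le.2 hx)
  have h2 : Set.EqOn A1 (fun _ => 0) (Ioi β) := by
    intro x hx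
    have h3 : A =ᶠ[nhds x] fun _ => 0 := by
      filter_upwards [isOpen_Ioi.mem_nhds hx] with y hy
      exact h1 hy
    exact (hA x).unique ((hasDerivAt_const x (0:ℂ)).congr_of_eventuallyEq h3)
  have h4 := h1.closure hAc continuous_const
  have h5 := h2.closure hA1c continuous_const
  rw [closure_Ioi] at h4 h5
  exact ⟨h4 self_mem_Ici, h5 self_mem_Ici⟩

/-- the second derivative term -/
noncomputable def DD (Q1 Q2 Q3 : ℝ → ℝ) (A A1 A2 : ℝ → ℂ) (x : ℝ) : ℂ :=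
  A2 x / (Q1 x : ℂ) ^ 2 - 3 * A1 x * Q2 x / (Q1 x : ℂ) ^ 3 - A x * Q3 x / (Q1 x : ℂ) ^ 3 +
    3 * A x * (Q2 x : ℂ) ^ 2 / (Q1 x : ℂ) ^ 4

theorem DD_bound {m L N : ℝ} {Q1 Q2 Q3 : ℝ → ℝ} {A A1 A2 : ℝ → ℂ} {x : ℝ} (hm : 0 < m)
    (hL : 1 ≤ L) (hN : 0 ≤ N) (h1 : m ≤ |Q1 x|) (h2 : |Q2 x| ≤ L * m) (h3 : |Q3 x| ≤ L * m)
    (h4 : ‖A x‖ ≤ N) (h5 : ‖A1 x‖ ≤ N) (h6 : ‖A2 x‖ ≤ N) :
    ‖DD Q1 Q2 Q3 A A1 A2 x‖ ≤ 8 * L ^ 2 * N / m ^ 2 := by
  have hp : 0 < |Q1 x| := hm.trans_le h1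
  have key : ∀ (a b : ℝ) (k : ℕ), 0 ≤ a → a ≤ b → a / |Q1 x| ^ k ≤ b / m ^ k := by
    intro a b k ha hab
    exact div_le_div₀ (ha.trans hab) hab (by positivity) (pow_le_pow_left₀ hm.le h1 k)
  have t1 : ‖A2 x / (Q1 x : ℂ) ^ 2‖ ≤ N / m ^ 2 := by
    rw [norm_div, norm_pow, Complex.norm_real, Real.norm_eq_abs]
    exact key _ _ 2 (norm_nonneg _) h6
  have t2 : ‖3 * A1 x * Q2 x / (Q1 x : ℂ) ^ 3‖ ≤ 3 * N * (L * m) / m ^ 3 := by
    rw [norm_div, norm_mul, norm_mul, norm_pow, Complex.norm_real, Complex.norm_real,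
      Real.norm_eq_abs, Real.norm_eq_abs]
    refine key _ _ 3 (by positivity) ?_
    have : ‖(3:ℂ)‖ = 3 := by simp
    rw [this]
    gcongr
  have t3 : ‖A x * Q3 x / (Q1 x : ℂ) ^ 3‖ ≤ N * (L * m) / m ^ 3 := by
    rw [norm_div, norm_mul, norm_pow, Complex.norm_real, Complex.norm_real,
      Real.norm_eq_abs, Real.norm_eq_abs]
    refine key _ _ 3 (by positivity) ?_
    gcongr
  have t4 : ‖3 * A x * (Q2 x : ℂ) ^ 2 / (Q1 x : ℂ) ^ 4‖ ≤ 3 * N * (L * m) ^ 2 / m ^ 4 := by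
    rw [norm_div, norm_mul, norm_mul, norm_pow, norm_pow, Complex.norm_real, Complex.norm_real,
      Real.norm_eq_abs, Real.norm_eq_abs]
    refine key _ _ 4 (by positivity) ?_
    have : ‖(3:ℂ)‖ = 3 := by simp
    rw [this]
    gcongr
  have hsum : ‖DD Q1 Q2 Q3 A A1 A2 x‖ ≤ N / m ^ 2 + 3 * N * (L * m) / m ^ 3 +
      N * (L * m) / m ^ 3 + 3 * N * (L * m) ^ 2 / m ^ 4 := by
    unfold DD
    refine (norm_add_le _ _).trans (add_le_add ?_ t4)
    refine (norm_sub_le _ _).trans (add_le_add ?_ t3)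
    exact (norm_sub_le _ _).trans (add_le_add t1 t2)
  refine hsum.trans ?_
  have e : N / m ^ 2 + 3 * N * (L * m) / m ^ 3 + N * (L * m) / m ^ 3 +
      3 * N * (L * m) ^ 2 / m ^ 4 = (1 + 4 * L + 3 * L ^ 2) * N / m ^ 2 := by
    field_simp
    ring
  rw [e]
  have : 1 + 4 * L + 3 * L ^ 2 ≤ 8 * L ^ 2 := by nlinarith
  gcongr

theorem nonstat : NonStat := by
  refine ⟨8, by norm_num, ?_⟩
  intro α β m L N t Q Q1 Q2 Q3 A A1 A2 hαβ hm hL hN ht hQ hQ1 hQ2 hQ3c hA hA1 hA2c hA0 hbd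
  have cQ : Continuous Q := continuous_iff_continuousAt.2 fun x => (hQ x).continuousAt
  have cQ1 : Continuous Q1 := continuous_iff_continuousAt.2 fun x => (hQ1 x).continuousAt
  have cQ2 : Continuous Q2 := continuous_iff_continuousAt.2 fun x => (hQ2 x).continuousAt
  have cA : Continuous A := continuous_iff_continuousAt.2 fun x => (hA x).continuousAt
  have cA1 : Continuous A1 := continuous_iff_continuousAt.2 fun x => (hA1 x).continuousAt
  obtain ⟨hα0, hα1⟩ := zero_left hA cA1 hA0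
  obtain ⟨hβ0, hβ1⟩ := zero_right hA cA1 hA0
  have hne : ∀ x ∈ Icc α β, (Q1 x : ℂ) ≠ 0 := by
    intro x hx h
    have h1 := (hbd x hx).1
    rw [Complex.ofReal_eq_zero] at h
    rw [h, abs_zero] at h1
    linarith
  have htc : (t : ℂ) ≠ 0 := by exact_mod_cast ht.ne'
  set E : ℝ → ℂ := fun x => cexp (I * ((t * Q x : ℝ) : ℂ)) with hE
  have cE : Continuous E := by
    rw [hE]; fun_prop
  have dE : ∀ x, HasDerivAt E (E x * (I * (t * Q1 x))) x := by
    intro x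
    have h1 : HasDerivAt (fun x => ((t * Q x : ℝ) : ℂ)) ((t * Q1 x : ℝ) : ℂ) x :=
      ((hQ x).const_mul t).ofReal_comp
    have h2 := (h1.const_mul I).cexp
    refine h2.congr_deriv ?_
    show cexp (I * ((t * Q x : ℝ) : ℂ)) * (I * ((t * Q1 x : ℝ) : ℂ)) =
      cexp (I * ((t * Q x : ℝ) : ℂ)) * (I * (t * Q1 x))
    push_cast
    ring
  have nE : ∀ x, ‖E x‖ = 1 := by
    intro x
    rw [hE]
    simp only
    rw [mul_comm, Complex.norm_exp_ofReal_mul_I]
  set F : ℝ → ℂ := fun x => E x * (A x / (I * t * Q1 x) +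
    (A1 x / (Q1 x : ℂ) ^ 2 - A x * Q2 x / (Q1 x : ℂ) ^ 3) / (t : ℂ) ^ 2) with hF
  have dF : ∀ x ∈ Icc α β, HasDerivAt F (E x * A x + E x * DD Q1 Q2 Q3 A A1 A2 x /
      (t : ℂ) ^ 2) x := by
    intro x hx
    have hq := hne x hx
    have d1 : HasDerivAt (fun x => (Q1 x : ℂ)) (Q2 x : ℂ) x := (hQ1 x).ofReal_comp
    have d2 : HasDerivAt (fun x => (Q2 x : ℂ)) (Q3 x : ℂ) x := (hQ2 x).ofReal_comp
    have g1 := (hA x).fun_div (d1.const_mul (I * t)) (mul_ne_zero (mul_ne_zero I_ne_zero htc) hq)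
    have g2 := (hA1 x).fun_div (d1.fun_pow 2) (pow_ne_zero 2 hq)
    have g3 := ((hA x).fun_mul d2).fun_div (d1.fun_pow 3) (pow_ne_zero 3 hq)
    have g4 := (dE x).fun_mul (g1.fun_add ((g2.fun_sub g3).div_const ((t : ℂ) ^ 2)))
    refine g4.congr_deriv ?_
    unfold DD
    have hI : I ≠ 0 := I_ne_zero
    have hI2 : I ^ 2 = -1 := I_sq
    field_simp
    ring_nf
    simp only [hI2]
    ring
  have cD : ContinuousOn (DD Q1 Q2 Q3 A A1 A2) (Icc α β) := by
    unfold DD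
    have c1 : ContinuousOn (fun x => (Q1 x : ℂ)) (Icc α β) :=
      (Complex.continuous_ofReal.comp cQ1).continuousOn
    have c2 : ContinuousOn (fun x => (Q2 x : ℂ)) (Icc α β) :=
      (Complex.continuous_ofReal.comp cQ2).continuousOn
    have c3 : ContinuousOn (fun x => (Q3 x : ℂ)) (Icc α β) :=
      (Complex.continuous_ofReal.comp hQ3c).continuousOn
    refine ContinuousOn.add (ContinuousOn.sub (ContinuousOn.sub ?_ ?_) ?_) ?_
    · exact hA2c.continuousOn.div (c1.pow 2) fun x hx => pow_ne_zero 2 (hne x hx)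
    · exact ((continuousOn_const.mul cA1.continuousOn).mul c2).div (c1.pow 3)
        fun x hx => pow_ne_zero 3 (hne x hx)
    · exact (cA.continuousOn.mul c3).div (c1.pow 3) fun x hx => pow_ne_zero 3 (hne x hx)
    · exact ((continuousOn_const.mul cA.continuousOn).mul (c2.pow 2)).div (c1.pow 4)
        fun x hx => pow_ne_zero 4 (hne x hx)
  have i1 : IntervalIntegrable (fun x => E x * A x) volume α β :=
    (cE.mul cA).intervalIntegrable _ _
  have i2 : IntervalIntegrable (fun x => E x * DD Q1 Q2 Q3 A A1 A2 x / (t : ℂ) ^ 2)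
      volume α β := by
    apply ContinuousOn.intervalIntegrable
    rw [uIcc_of_le hαβ]
    exact (cE.continuousOn.mul cD).div_const _
  have hFTC := intervalIntegral.integral_eq_sub_of_hasDerivAt (f := F)
    (f' := fun x => E x * A x + E x * DD Q1 Q2 Q3 A A1 A2 x / (t : ℂ) ^ 2) (a := α) (b := β)
    (fun x hx => dF x (by rwa [uIcc_of_le hαβ] at hx)) (i1.add i2)
  have hFα : F α = 0 := by simp [hF, hα0, hα1]
  have hFβ : F β = 0 := by simp [hF, hβ0, hβ1]
  rw [hFα, hFβ, sub_zero, intervalIntegral.integral_add i1 i2] at hFTC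
  have hmain : ∫ x, E x * A x = -∫ x in α..β, E x * DD Q1 Q2 Q3 A A1 A2 x / (t : ℂ) ^ 2 := by
    have h1 : ∫ x in Icc α β, E x * A x = ∫ x, E x * A x :=
      setIntegral_eq_integral_of_forall_compl_eq_zero fun x hx => by rw [hA0 x hx, mul_zero]
    rw [← h1, integral_Icc_eq_integral_Ioc, ← intervalIntegral.integral_of_le hαβ]
    exact eq_neg_of_add_eq_zero_left hFTC
  rw [hmain, norm_neg]
  have hb := intervalIntegral.norm_integral_le_of_norm_le_const (a := α) (b := β)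
    (f := fun x => E x * DD Q1 Q2 Q3 A A1 A2 x / (t : ℂ) ^ 2)
    (C := 8 * L ^ 2 * N / m ^ 2 / t ^ 2) (by
      intro x hx
      rw [uIoc_of_le hαβ] at hx
      have hx' : x ∈ Icc α β := ⟨hx.1.le, hx.2⟩
      obtain ⟨b1, b2, b3, b4, b5, b6⟩ := hbd x hx'
      rw [norm_div, norm_mul, nE, one_mul, norm_pow, Complex.norm_real, Real.norm_eq_abs,
        abs_of_pos ht]
      exact div_le_div_of_nonneg_right (DD_bound hm hL hN b1 b2 b3 b4 b5 b6) (by positivity))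
  rw [abs_of_nonneg (sub_nonneg.2 hαβ)] at hb
  refine hb.trans (le_of_eq ?_)
  field_simp

end Pool.Agent.TH999.MV
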