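import Mathlib
import Pool.Agent.TH407.MV.Defs
import Pool.Agent.TH277.CP.P
import Pool.Agent.TH159.VR.FaBounds

/-!
# MV-11: bounds for the scaled spherical extension operator
-/

set_option autoImplicit false

namespace Pool.Agent.TH999.MV

open MeasureTheory Set Complex
open scoped ENNReal NNReal Real ComplexConjugate
open Pool.Agent.TH407.MV
open Pool.Agent.TH159.VR (measurable_sq measurable_ang lintegral_polar_sq enorm_phase sq_nonneg')
open Pool.Agent.TH407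

lemma eta_nonneg (s : ℝ) : 0 ≤ TH407.MV.eta s :=
  mul_nonneg (Real.smoothTransition.nonneg _) (Real.smoothTransition.nonneg _)

lemma eta_le_one (s : ℝ) : TH407.MV.eta s ≤ 1 := by
  unfold TH407.MV.eta
  exact mul_le_one₀ (Real.smoothTransition.le_one _) (Real.smoothTransition.nonneg _)
    (Real.smoothTransition.le_one _)

lemma eta_zero {s : ℝ} (h : 2 ≤ s) : TH407.MV.eta s = 0 := by
  unfold TH407.MV.eta
  rw [Real.smoothTransition.zero_of_nonpos (x := 2 - s) (by linarith), mul_zero]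

lemma continuous_eta : Continuous TH407.MV.eta := by
  unfold TH407.MV.eta
  exact (Real.smoothTransition.continuous.comp (by fun_prop)).mul
    (Real.smoothTransition.continuous.comp (by fun_prop))

/-- the radial profile as a function of the squared radius -/
noncomputable def pr (ε s : ℝ) : ℝ := if ε ^ 2 * s < 1 then TH407.MV.eta (gn ε s) else 0

lemma pro_eq (ε : ℝ) (x : ℝ × ℝ) : pro ε x = pr ε (AR.sq x) := rfl

lemma pr_nonneg (ε s : ℝ) : 0 ≤ pr ε s := by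
  unfold pr
  split_ifs
  · exact eta_nonneg _
  · exact le_rfl

lemma pr_le_one (ε s : ℝ) : pr ε s ≤ 1 := by
  unfold pr
  split_ifs
  · exact eta_le_one _
  · exact zero_le_one

lemma pr_zero {ε s : ℝ} (h : ¬ ε ^ 2 * s < 1) : pr ε s = 0 := by
  unfold pr
  rw [if_neg h]

lemma pr_zero' {ε s : ℝ} (h : 2 ≤ s) : pr ε s = 0 := by
  unfold pr
  split_ifs with h1
  · apply eta_zero
    unfold gn
    rw [le_div_iff₀ (by linarith)]
    nlinarith [mul_nonneg (sq_nonneg ε) (by linarith : (0:ℝ) ≤ s)]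
  · rfl

lemma measurable_pr (ε : ℝ) : Measurable (pr ε) := by
  unfold pr
  refine Measurable.ite (measurableSet_lt (by fun_prop) measurable_const) ?_ measurable_const
  refine continuous_eta.measurable.comp ?_
  unfold gn
  fun_prop

lemma measurable_ps (ε : ℝ) : Measurable (ps ε) := by
  unfold ps
  fun_prop

/-- the inverse of `ps ε` -/
noncomputable def sg (ε u : ℝ) : ℝ := 2 * u - ε ^ 2 * u ^ 2

lemma ps_sg {ε u : ℝ} (_h0 : 0 < u) (h1 : ε ^ 2 * u < 1) : ps ε (sg ε u) = u := by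
  unfold ps sg
  have e : 1 - ε ^ 2 * (2 * u - ε ^ 2 * u ^ 2) = (1 - ε ^ 2 * u) ^ 2 := by ring
  rw [e, Real.sqrt_sq (by linarith)]
  have : (0:ℝ) < 1 + (1 - ε ^ 2 * u) := by linarith
  rw [div_eq_iff this.ne']
  ring

lemma sg_ps {ε s : ℝ} (h0 : 0 < s) (h1 : ε ^ 2 * s < 1) : sg ε (ps ε s) = s ∧ 0 < ps ε s ∧
    ε ^ 2 * ps ε s < 1 := by
  have hq : 0 < √(1 - ε ^ 2 * s) := Real.sqrt_pos.2 (by linarith)
  have hq2 : √(1 - ε ^ 2 * s) ^ 2 = 1 - ε ^ 2 * s := Real.sq_sqrt (by linarith)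
  set q := √(1 - ε ^ 2 * s) with hqd
  have hps : ps ε s = s / (1 + q) := rfl
  rw [hps]
  have h2 : 0 < 1 + q := by linarith
  refine ⟨?_, by positivity, ?_⟩
  · unfold sg
    field_simp
    nlinarith [hq2]
  · rw [mul_div_assoc', div_lt_one h2]
    linarith

lemma meas_U (ε : ℝ) : MeasurableSet {u : ℝ | 0 < u ∧ ε ^ 2 * u < 1} := by
  have h1 : MeasurableSet {u : ℝ | 0 < u} := measurableSet_Ioi
  have h2 : MeasurableSet {u : ℝ | ε ^ 2 * u < 1} :=
    measurableSet_lt (by fun_prop) measurable_const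
  exact h1.inter h2

lemma meas_2 : MeasurableSet {s : ℝ | s < 2} := measurableSet_Iio

/-- change of variables -/
lemma cov (ε : ℝ) (F : ℝ → ℝ≥0∞) :
    ∫⁻ s in {s : ℝ | 0 < s ∧ ε ^ 2 * s < 1}, F (ps ε s) ≤ 2 * ∫⁻ s : ℝ, F s := by
  have hU := meas_U ε
  have himg : sg ε '' {u : ℝ | 0 < u ∧ ε ^ 2 * u < 1} = {s : ℝ | 0 < s ∧ ε ^ 2 * s < 1} := by
    ext s
    constructor
    · rintro ⟨u, ⟨hu0, hu1⟩, rfl⟩
      refine ⟨?_, ?_⟩
      · unfold sg
        nlinarith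
      · unfold sg
        have : 0 < (1 - ε ^ 2 * u) ^ 2 := by
          have : 0 < 1 - ε ^ 2 * u := by linarith
          positivity
        nlinarith
    · rintro ⟨hs0, hs1⟩
      obtain ⟨h1, h2, h3⟩ := sg_ps hs0 hs1
      exact ⟨ps ε s, ⟨h2, h3⟩, h1⟩
  have hinj : InjOn (sg ε) {u : ℝ | 0 < u ∧ ε ^ 2 * u < 1} := by
    intro u hu v hv huv
    rw [← ps_sg hu.1 hu.2, ← ps_sg hv.1 hv.2, huv]
  have hder : ∀ u ∈ {u : ℝ | 0 < u ∧ ε ^ 2 * u < 1},
      HasDerivWithinAt (sg ε) (2 - ε ^ 2 * (2 * u)) {u : ℝ | 0 < u ∧ ε ^ 2 * u < 1} u := by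
    intro u _
    unfold sg
    have h1 := ((hasDerivAt_id u).const_mul 2).sub (((hasDerivAt_pow 2 u)).const_mul (ε ^ 2))
    have h2 : HasDerivAt (fun u : ℝ => 2 * u - ε ^ 2 * u ^ 2) (2 - ε ^ 2 * (2 * u)) u := by
      refine h1.congr_deriv ?_
      norm_num
    exact h2.hasDerivWithinAt
  have h := lintegral_image_eq_lintegral_abs_deriv_mul hU hder hinj (fun s => F (ps ε s))
  rw [himg] at h
  rw [h]
  calc ∫⁻ u in {u : ℝ | 0 < u ∧ ε ^ 2 * u < 1}, ENNReal.ofReal |2 - ε ^ 2 * (2 * u)| *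
        F (ps ε (sg ε u)) ≤ ∫⁻ u in {u : ℝ | 0 < u ∧ ε ^ 2 * u < 1}, 2 * F u := by
        refine setLIntegral_mono' hU fun u hu => ?_
        rw [ps_sg hu.1 hu.2]
        refine mul_le_mul' ?_ le_rfl
        have h2 : (2 : ℝ≥0∞) = ENNReal.ofReal 2 := by norm_num
        rw [h2]
        apply ENNReal.ofReal_le_ofReal
        have h3 := hu.2
        have h4 : 0 ≤ ε ^ 2 * u := mul_nonneg (sq_nonneg _) hu.1.le
        rw [abs_of_nonneg (by nlinarith)]
        nlinarith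
    _ ≤ ∫⁻ u : ℝ, 2 * F u := setLIntegral_le_lintegral _ _
    _ = 2 * ∫⁻ u : ℝ, F u := lintegral_const_mul' _ _ (by norm_num)

section main

variable {b : ℝ → ℝ → ℂ} (hb : Measurable (Function.uncurry b)) (ε : ℝ)

include hb

lemma measurable_fap : Measurable (fap ε b) := by
  unfold fap
  have h1 : Measurable fun x : ℝ × ℝ => b (ps ε (AR.sq x)) (AR.ang x) :=
    hb.comp (((measurable_ps ε).comp measurable_sq).prodMk measurable_ang)
  exact (Complex.measurable_ofReal.comp ((measurable_pr ε).comp measurable_sq)).mul h1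

lemma lintegral_fap_sq : ∫⁻ x : ℝ × ℝ, ‖fap ε b x‖ₑ ^ 2 ≤
    ∫⁻ s : ℝ, ∫⁻ θ in Ioo (-π) π, ‖b s θ‖ₑ ^ 2 := by
  have hm : Measurable (Function.uncurry fun s θ => ‖(pr ε s : ℂ) * b (ps ε s) θ‖ₑ ^ 2) := by
    have h1 : Measurable fun p : ℝ × ℝ => b (ps ε p.1) p.2 :=
      hb.comp (((measurable_ps ε).comp measurable_fst).prodMk measurable_snd)
    have h2 : Measurable fun p : ℝ × ℝ => (pr ε p.1 : ℂ) * b (ps ε p.1) p.2 :=
      (Complex.measurable_ofReal.comp ((measurable_pr ε).comp measurable_fst)).mul h1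
    exact h2.enorm.pow_const 2
  have h1 := lintegral_polar_sq (h := fun s θ => ‖(pr ε s : ℂ) * b (ps ε s) θ‖ₑ ^ 2) hm
  have h2 : ∫⁻ s in Ioi (0 : ℝ), ∫⁻ θ in Ioo (-π) π, ‖(pr ε s : ℂ) * b (ps ε s) θ‖ₑ ^ 2 ≤
      ∫⁻ s in {s : ℝ | 0 < s ∧ ε ^ 2 * s < 1}, ∫⁻ θ in Ioo (-π) π, ‖b (ps ε s) θ‖ₑ ^ 2 := by
    have hU := meas_U ε
    rw [← lintegral_indicator measurableSet_Ioi, ← lintegral_indicator hU]
    refine lintegral_mono fun s => ?_
    by_cases hs : 0 < s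
    · by_cases hs1 : ε ^ 2 * s < 1
      · rw [indicator_of_mem (show s ∈ Ioi (0:ℝ) from hs),
          indicator_of_mem (show s ∈ {s : ℝ | 0 < s ∧ ε ^ 2 * s < 1} from ⟨hs, hs1⟩)]
        refine lintegral_mono fun θ => ?_
        refine pow_le_pow_left' ?_ 2
        rw [enorm_mul]
        refine mul_le_of_le_one_left' ?_
        rw [← ofReal_norm, Complex.norm_real, Real.norm_of_nonneg (pr_nonneg _ _),
          ENNReal.ofReal_le_one]
        exact pr_le_one _ _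
      · rw [indicator_of_mem (show s ∈ Ioi (0:ℝ) from hs)]
        simp [pr_zero hs1]
    · rw [indicator_of_notMem (show s ∉ Ioi (0:ℝ) from hs)]
      exact zero_le
  have h3 := cov ε (fun s => ∫⁻ θ in Ioo (-π) π, ‖b s θ‖ₑ ^ 2)
  have h4 : 2 * ∫⁻ x : ℝ × ℝ, ‖fap ε b x‖ₑ ^ 2 ≤
      2 * ∫⁻ s : ℝ, ∫⁻ θ in Ioo (-π) π, ‖b s θ‖ₑ ^ 2 := (h1.le.trans h2).trans h3
  exact (ENNReal.mul_le_mul_iff_right (by norm_num) (by norm_num)).1 h4

lemma lintegral_fap : (∫⁻ x : ℝ × ℝ, ‖fap ε b x‖ₑ) ^ 2 ≤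
    8 * ∫⁻ s : ℝ, ∫⁻ θ in Ioo (-π) π, ‖b s θ‖ₑ ^ 2 := by
  have hconj : Real.HolderConjugate 2 2 := Real.HolderConjugate.two_two
  have hU : MeasurableSet {x : ℝ × ℝ | AR.sq x < 2} :=
    measurableSet_lt measurable_sq measurable_const
  have h1 := ENNReal.lintegral_mul_le_Lp_mul_Lq (volume : Measure (ℝ × ℝ)) hconj
    (f := indicator {x : ℝ × ℝ | AR.sq x < 2} fun _ => (1 : ℝ≥0∞)) (g := fun x => ‖fap ε b x‖ₑ)
    ((measurable_const.indicator hU).aemeasurable) (measurable_fap hb ε).enorm.aemeasurable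
  have h2 : ∫⁻ x : ℝ × ℝ, ‖fap ε b x‖ₑ = ∫⁻ x : ℝ × ℝ,
      ((indicator {x : ℝ × ℝ | AR.sq x < 2} fun _ => (1 : ℝ≥0∞)) *
        fun x => ‖fap ε b x‖ₑ) x := by
    refine lintegral_congr fun x => ?_
    simp only [Pi.mul_apply]
    by_cases hx : AR.sq x < 2
    · rw [indicator_of_mem (show x ∈ {x : ℝ × ℝ | AR.sq x < 2} from hx), one_mul]
    · have : fap ε b x = 0 := by
        unfold fap
        rw [pro_eq, pr_zero' (not_lt.1 hx)]
        simp
      rw [this]; simp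
  have h3 : (∫⁻ x : ℝ × ℝ, (indicator {x : ℝ × ℝ | AR.sq x < 2} (fun _ => (1 : ℝ≥0∞)) x) ^
      (2 : ℝ)) ≤ 8 := by
    have h4 := lintegral_polar_sq (h := fun s _ =>
      indicator {s : ℝ | s < 2} (fun _ => (1 : ℝ≥0∞)) s) (by
      have h5 : Measurable fun p : ℝ × ℝ => indicator {s : ℝ | s < 2} (fun _ => (1 : ℝ≥0∞)) p.1 :=
        (measurable_const.indicator meas_2).comp measurable_fst
      exact h5)
    have h6 : ∫⁻ s in Ioi (0 : ℝ), ∫⁻ _θ in Ioo (-π) π,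
        indicator {s : ℝ | s < 2} (fun _ => (1 : ℝ≥0∞)) s = ENNReal.ofReal 2 *
          ENNReal.ofReal (2 * π) := by
      simp only [lintegral_const, Measure.restrict_apply MeasurableSet.univ, univ_inter,
        Real.volume_Ioo]
      rw [lintegral_mul_const' _ _ ENNReal.ofReal_ne_top,
        lintegral_indicator meas_2]
      rw [setLIntegral_one, Measure.restrict_apply meas_2]
      have : {s : ℝ | s < 2} ∩ Ioi 0 = Ioo 0 2 := by
        ext s; simp [and_comm]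
      rw [this, Real.volume_Ioo]
      congr 2
      · ring
      · ring
    have h7 : (∫⁻ x : ℝ × ℝ, (indicator {x : ℝ × ℝ | AR.sq x < 2} (fun _ => (1 : ℝ≥0∞)) x) ^
        (2 : ℝ)) = ∫⁻ x : ℝ × ℝ, indicator {s : ℝ | s < 2} (fun _ => (1 : ℝ≥0∞)) (AR.sq x) := by
      refine lintegral_congr fun x => ?_
      by_cases hx : AR.sq x < 2
      · rw [indicator_of_mem (show x ∈ {x : ℝ × ℝ | AR.sq x < 2} from hx),
          indicator_of_mem (show AR.sq x ∈ {s : ℝ | s < 2} from hx)]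
        simp
      · rw [indicator_of_notMem (show x ∉ {x : ℝ × ℝ | AR.sq x < 2} from hx),
          indicator_of_notMem (show AR.sq x ∉ {s : ℝ | s < 2} from hx)]
        simp
    have h8 : 2 * (∫⁻ x : ℝ × ℝ, (indicator {x : ℝ × ℝ | AR.sq x < 2}
        (fun _ => (1 : ℝ≥0∞)) x) ^ (2 : ℝ)) ≤ 2 * 8 := by
      rw [h7, h4, h6, ← ENNReal.ofReal_mul (by norm_num)]
      have h9 : (2 : ℝ≥0∞) * 8 = ENNReal.ofReal 16 := by norm_num
      rw [h9]
      apply ENNReal.ofReal_le_ofReal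
      have := Real.pi_le_four
      linarith
    exact (ENNReal.mul_le_mul_iff_right (by norm_num) (by norm_num)).1 h8
  rw [h2]
  refine (pow_le_pow_left' h1 2).trans ?_
  rw [mul_pow, ← ENNReal.rpow_natCast, ← ENNReal.rpow_natCast, ← ENNReal.rpow_mul,
    ← ENNReal.rpow_mul]
  norm_num
  refine mul_le_mul' ?_ (lintegral_fap_sq hb ε)
  simpa using h3

lemma integrable_fap (hN : ∫⁻ s : ℝ, ∫⁻ θ in Ioo (-π) π, ‖b s θ‖ₑ ^ 2 ≠ ∞) :
    Integrable (fap ε b) := by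
  refine ⟨(measurable_fap hb ε).aestronglyMeasurable, ?_⟩
  unfold HasFiniteIntegral
  by_contra h
  have h1 : ∫⁻ x : ℝ × ℝ, ‖fap ε b x‖ₑ = ∞ := not_lt_top_iff.1 h
  have h2 := lintegral_fap hb ε
  rw [h1] at h2
  have h3 : (8 : ℝ≥0∞) * ∫⁻ s : ℝ, ∫⁻ θ in Ioo (-π) π, ‖b s θ‖ₑ ^ 2 = ∞ :=
    top_le_iff.1 (by simpa using h2)
  exact (ENNReal.mul_ne_top (by norm_num) hN) h3

lemma memLp_fap (hN : ∫⁻ s : ℝ, ∫⁻ θ in Ioo (-π) π, ‖b s θ‖ₑ ^ 2 ≠ ∞) :
    MemLp (fap ε b) 2 := by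
  refine ⟨(measurable_fap hb ε).aestronglyMeasurable, ?_⟩
  rw [eLpNorm_lt_top_iff_lintegral_rpow_enorm_lt_top (by norm_num) (by norm_num)]
  have h1 := lintegral_fap_sq hb ε
  have h2 : ∫⁻ x : ℝ × ℝ, ‖fap ε b x‖ₑ ^ (ENNReal.toReal 2) =
      ∫⁻ x : ℝ × ℝ, ‖fap ε b x‖ₑ ^ 2 := by
    refine lintegral_congr fun x => ?_
    rw [← ENNReal.rpow_natCast]
    norm_num
  rw [h2]
  exact lt_of_le_of_lt h1 (lt_top_iff_ne_top.2 hN)

end main

theorem faP : FaP := by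
  intro A0
  refine ⟨((2 * π) ^ 2).toNNReal, fun ε _ _ b hb hN => ?_⟩
  have hC : ((((2 * π) ^ 2).toNNReal : ℝ≥0) : ℝ≥0∞) = ENNReal.ofReal ((2 * π) ^ 2) := rfl
  rw [hC]
  have hi := integrable_fap hb ε hN
  have hL := memLp_fap hb ε hN
  refine ⟨hi, hL, fun t => ?_, fun X t => ?_⟩
  · set F : ℝ × ℝ → ℂ := fun x => cexp (-(I * ((ps ε (AR.sq x) * t : ℝ) : ℂ))) * fap ε b x with hF
    have hmeas : Measurable fun x : ℝ × ℝ => cexp (-(I * ((ps ε (AR.sq x) * t : ℝ) : ℂ))) := by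
      have h1 : Measurable fun x : ℝ × ℝ => ps ε (AR.sq x) :=
        (measurable_ps ε).comp measurable_sq
      fun_prop
    have hnorm : ∀ x, ‖F x‖ₑ = ‖fap ε b x‖ₑ := by
      intro x
      rw [hF, enorm_mul, enorm_phase, one_mul]
    have hnorm' : ∀ x, ‖F x‖ = ‖fap ε b x‖ := by
      intro x
      have := congrArg ENNReal.toReal (hnorm x)
      simpa using this
    have hFm : Measurable F := hmeas.mul (measurable_fap hb ε)
    have hFi : Integrable F := hi.mono hFm.aestronglyMeasurable (ae_of_all _ fun x => (hnorm' x).le)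
    have hFL : MemLp F 2 := hL.mono hFm.aestronglyMeasurable (ae_of_all _ fun x => (hnorm' x).le)
    have hpl := Pool.Agent.TH277.CP.plancherel2 F hFi hFL
    have hEX : ∀ X, EP ε (fap ε b) X t =
        ∫ x : ℝ × ℝ, cexp (-(I * ((x.1 * X.1 + x.2 * X.2 : ℝ) : ℂ))) * F x := by
      intro X
      unfold EP
      refine integral_congr_ae (ae_of_all _ fun x => ?_)
      simp only [hF]
      rw [← mul_assoc, ← Complex.exp_add]
      congr 2
      push_cast
      ring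
    simp_rw [hEX]
    rw [hpl]
    simp_rw [hnorm]
    exact mul_le_mul' le_rfl (lintegral_fap_sq hb ε)
  · have h1 : ‖EP ε (fap ε b) X t‖ₑ ≤ ∫⁻ x : ℝ × ℝ, ‖fap ε b x‖ₑ := by
      unfold EP
      refine (enorm_integral_le_lintegral_enorm _).trans (lintegral_mono fun x => ?_)
      rw [enorm_mul, enorm_phase, one_mul]
    refine (pow_le_pow_left' h1 2).trans ((lintegral_fap hb ε).trans ?_)
    refine mul_le_mul' ?_ le_rfl
    have h8 : (8 : ℝ≥0∞) = ENNReal.ofReal 8 := by norm_num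
    rw [h8]
    apply ENNReal.ofReal_le_ofReal
    nlinarith [Real.pi_gt_three]

end Pool.Agent.TH999.MV
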