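import Mathlib
import Pool.Agent.TH650.MV.Api
import Pool.Agent.TH902.MV.Gk

/-! # Equality case: the face has dimension `n - 1` (helper999) -/

set_option autoImplicit false

open MeasureTheory Set Multiset Module
open scoped Pointwise NNReal RealInnerProductSpace

noncomputable section

namespace Pool.Agent.TH999.MV

open Pool.Agent.TH650.MV
open Pool.Agent.TH902.MV (V_lowdim Gk)

section
variable {E : Type*} [NormedAddCommGroup E] [InnerProductSpace ℝ E] [FiniteDimensional ℝ E]
  [MeasurableSpace E] [BorelSpace E]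

omit [FiniteDimensional ℝ E] [MeasurableSpace E] [BorelSpace E] in
theorem fc_aux (K : ConvexBody E) {c : E} {r : ℝ} {w : E} (h : Tch (K : Set E) c r w) :
    ∃ x ∈ K, (-(innerSL ℝ w)) x ≤ -(⟪w, c⟫ + r) :=
  ⟨c + r • w, h.2.2.1 (by
    rw [mem_closedBall_iff_norm, add_sub_cancel_left, norm_smul, h.2.1, mul_one,
      Real.norm_of_nonneg h.1.le]), by
    have : ⟪w, c + r • w⟫ = ⟪w, c⟫ + r := by
      rw [inner_add_right, inner_smul_right, real_inner_self_eq_norm_sq, h.2.1]; ring
    simp [innerSL_apply_apply, this]⟩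

/-- the face of `K` in direction `w`, for a touching ball (copy of the definition of the plan) -/
def fc (K : ConvexBody E) {c : E} {r : ℝ} {w : E} (h : Tch (K : Set E) c r w) : ConvexBody E :=
  cut K (-(innerSL ℝ w)) (-(⟪w, c⟫ + r)) (fc_aux K h)

omit [FiniteDimensional ℝ E] [MeasurableSpace E] [BorelSpace E] in
theorem mem_fc (K : ConvexBody E) {c : E} {r : ℝ} {w : E} (h : Tch (K : Set E) c r w) (x : E) :
    x ∈ fc K h ↔ x ∈ K ∧ ⟪w, x⟫ = ⟪w, c⟫ + r := by
  have h1 : x ∈ fc K h ↔ x ∈ K ∧ (-(innerSL ℝ w)) x ≤ -(⟪w, c⟫ + r) := Iff.rfl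
  rw [h1]
  constructor
  · rintro ⟨h2, h3⟩
    refine ⟨h2, le_antisymm (h.2.2.2 x h2) ?_⟩
    simp only [neg_apply, innerSL_apply_apply] at h3
    linarith
  · rintro ⟨h2, h3⟩
    refine ⟨h2, ?_⟩
    simp only [neg_apply, innerSL_apply_apply]
    linarith

omit [FiniteDimensional ℝ E] [MeasurableSpace E] [BorelSpace E] in
theorem base_mem (K : ConvexBody E) {c : E} {r : ℝ} {w : E} (h : Tch (K : Set E) c r w) :
    c + r • w ∈ fc K h := by
  rw [mem_fc]
  refine ⟨h.2.2.1 (by
    rw [mem_closedBall_iff_norm, add_sub_cancel_left, norm_smul, h.2.1, mul_one,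
      Real.norm_of_nonneg h.1.le]), ?_⟩
  rw [inner_add_right, inner_smul_right, real_inner_self_eq_norm_sq, h.2.1]
  ring

omit [MeasurableSpace E] [BorelSpace E] in
/-- a body in the span of its differences -/
theorem exists_span (F : ConvexBody E) {x₀ : E} (hx₀ : x₀ ∈ F) (W : Submodule ℝ E)
    (hW : ∀ x ∈ F, x - x₀ ∈ W) :
    ∃ (T : Submodule ℝ E) (P : ConvexBody T), T ≤ W ∧ (interior (P : Set T)).Nonempty ∧
      F = img (Submodule.subtypeL T) P + sing x₀ := by
  set D : Set E := {y | x₀ + y ∈ F} with hD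
  have h0D : (0 : E) ∈ D := by
    show x₀ + 0 ∈ F
    rwa [add_zero]
  set T : Submodule ℝ E := Submodule.span ℝ D with hT
  set Ps : Set T := (fun t : T => (t : E)) ⁻¹' D with hPs
  have hPc : Convex ℝ Ps := by
    have h1 : Convex ℝ D := F.convex.translate_preimage_right x₀
    exact h1.is_linear_preimage T.subtype.isLinear
  have hPk : IsCompact Ps := by
    have h1 : IsCompact D := (Homeomorph.addLeft x₀).isClosedEmbedding.isCompact_preimage F.isCompact
    exact (T.closed_of_finiteDimensional.isClosedEmbedding_subtypeVal).isCompact_preimage h1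
  have hP0 : (0 : T) ∈ Ps := h0D
  let P : ConvexBody T := ⟨Ps, hPc, hPk, ⟨0, hP0⟩⟩
  refine ⟨T, P, ?_, ?_, ?_⟩
  · rw [hT, Submodule.span_le]
    intro y hy
    have := hW (x₀ + y) hy
    rwa [add_sub_cancel_left] at this
  · show (interior Ps).Nonempty
    rw [hPc.interior_nonempty_iff_affineSpan_eq_top,
      AffineSubspace.affineSpan_eq_top_iff_vectorSpan_eq_top_of_nonempty ℝ T T ⟨0, hP0⟩]
    rw [eq_top_iff]
    have h1 : Submodule.span ℝ Ps = ⊤ := Submodule.span_span_coe_preimage
    rw [← h1, Submodule.span_le]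
    intro p hp
    have h2 := vsub_mem_vectorSpan ℝ hp hP0
    simpa using h2
  · apply ConvexBody.ext
    rw [ConvexBody.coe_add]
    ext x
    constructor
    · intro hx
      have h1 : x - x₀ ∈ D := by
        show x₀ + (x - x₀) ∈ F
        rwa [add_sub_cancel]
      refine ⟨x - x₀, ⟨⟨x - x₀, Submodule.subset_span h1⟩, h1, rfl⟩, x₀, rfl, ?_⟩
      simp
    · rintro ⟨y, ⟨p, hp, rfl⟩, z, hz, rfl⟩
      have hz' : z = x₀ := hz
      subst hz'
      have h1 : z + (p : E) ∈ F := hp
      show (p : E) + z ∈ F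
      rwa [add_comm]

variable (μ : Measure E) [μ.IsAddHaarMeasure]

/-- translations -/
theorem V_translate (x : E) (A : ConvexBody E) (q : ℕ) (t : Multiset (ConvexBody E))
    (h : q + card t = finrank ℝ E) :
    V μ (replicate q (A + sing x) + t) = V μ (replicate q A + t) := by
  induction q generalizing t with
  | zero => simp
  | succ q ih =>
    rw [replicate_succ, cons_add, V_sing_add μ x A _ (by rw [card_add, card_replicate]; omega),
      ← add_cons, ih (A ::ₘ t) (by rw [card_cons]; omega), add_cons, replicate_succ, cons_add]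

/-- the comparison for a body in a subspace -/
theorem comp (T : Submodule ℝ E) (P : ConvexBody T) (hP : (interior (P : Set T)).Nonempty)
    (x₀ : E) (F K : ConvexBody E) (hF : F = img (Submodule.subtypeL T) P + sing x₀) {q p : ℕ}
    (hn : q + p = finrank ℝ E) :
    V μ (replicate q F + replicate p ((-1 : ℝ) • K)) ≤
      ((finrank ℝ T).choose q : ℝ) * V μ (replicate q F + replicate p K) := by
  rw [hF, V_translate μ x₀ _ q _ (by rw [card_replicate]; exact hn),
    V_translate μ x₀ _ q _ (by rw [card_replicate]; exact hn)]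
  rcases le_or_gt q (finrank ℝ T) with h | h
  · have hpos : 0 < vl (volume : Measure T) P := by
      unfold vl
      refine ENNReal.toReal_pos ?_ P.isCompact.measure_lt_top.ne
      exact (Measure.measure_pos_of_nonempty_interior _ hP).ne'
    exact Gk (volume : Measure T) μ (Submodule.subtypeL T) P K h hn hpos
  · rw [V_lowdim μ (Submodule.subtypeL T) P q _ h (by rw [card_replicate]; exact hn),
      Nat.choose_eq_zero_of_lt h]
    simp

/-- E5 (DIM) -/
theorem face_dim (K : ConvexBody E) {q p : ℕ} (hq : 0 < q) (hp : 0 < p)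
    (hn : q + p = finrank ℝ E) (hK : 0 < vl μ K) {c : E} {r : ℝ} {w : E} (h : Tch (K : Set E) c r w)
    (hF : ((q + p - 1).choose q : ℝ) * vl μ K ≤ V μ (replicate q (fc K h) + replicate p ((-1 : ℝ) • K))) :
    ∃ P : ConvexBody (ℝ ∙ w)ᗮ, (interior (P : Set (ℝ ∙ w)ᗮ)).Nonempty ∧
      fc K h = img (Submodule.subtypeL (ℝ ∙ w)ᗮ) P + sing (c + r • w) ∧
      V μ (replicate q (fc K h) + replicate p K) = vl μ K ∧
      V μ (replicate q (fc K h) + replicate p ((-1 : ℝ) • K)) = ((q + p - 1).choose q : ℝ) * vl μ K := by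
  have hw : w ≠ 0 := by
    intro h0
    have := h.2.1
    rw [h0, norm_zero] at this
    norm_num at this
  have hfr : finrank ℝ (ℝ ∙ w)ᗮ + 1 = finrank ℝ E := by
    have h1 := Submodule.finrank_add_finrank_orthogonal (ℝ ∙ w)
    rw [finrank_span_singleton hw] at h1
    omega
  have hFK : fc K h ≤ K := fun x hx => ((mem_fc K h x).1 hx).1
  have hle : V μ (replicate q (fc K h) + replicate p K) ≤ vl μ K := by
    have h1 := V_mono_replicate μ hFK q (replicate p K) (by rw [card_replicate]; omega)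
    rwa [← replicate_add, hn, V_self] at h1
  obtain ⟨T, P, hTW, hPi, hPF⟩ := exists_span (fc K h) (base_mem K h) (ℝ ∙ w)ᗮ (by
    intro x hx
    rw [Submodule.mem_orthogonal_singleton_iff_inner_right, inner_sub_right,
      ((mem_fc K h x).1 hx).2, ((mem_fc K h _).1 (base_mem K h)).2, sub_self])
  have hcomp := comp μ T P hPi (c + r • w) (fc K h) K hPF hn
  have hV0 : 0 ≤ V μ (replicate q (fc K h) + replicate p K) :=
    V_nonneg μ _ (by rw [card_add, card_replicate, card_replicate]; exact hn)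
  have hdim : finrank ℝ T ≤ finrank ℝ (ℝ ∙ w)ᗮ := Submodule.finrank_mono hTW
  have hch : ((q + p - 1).choose q : ℝ) ≤ ((finrank ℝ T).choose q : ℝ) := by
    have h1 : ((q + p - 1).choose q : ℝ) * vl μ K ≤ ((finrank ℝ T).choose q : ℝ) * vl μ K :=
      (hF.trans hcomp).trans (mul_le_mul_of_nonneg_left hle (Nat.cast_nonneg _))
    exact le_of_mul_le_mul_right h1 hK
  have hch' : (q + p - 1).choose q ≤ (finrank ℝ T).choose q := by exact_mod_cast hch
  have hT : T = (ℝ ∙ w)ᗮ := by
    refine Submodule.eq_of_le_of_finrank_eq hTW (le_antisymm hdim ?_)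
    by_contra hcon
    push Not at hcon
    have h1 : (finrank ℝ T).choose q < (q + p - 1).choose q := by
      obtain ⟨d, hd⟩ : ∃ d, q + p - 1 = d + 1 := ⟨q + p - 2, by omega⟩
      obtain ⟨q', rfl⟩ : ∃ q', q = q' + 1 := ⟨q - 1, by omega⟩
      have h2 : finrank ℝ T ≤ d := by omega
      rw [hd, Nat.choose_succ_succ']
      have h3 := Nat.choose_le_choose (q' + 1) h2
      have h4 : 0 < d.choose q' := Nat.choose_pos (by omega)
      omega
    omega
  subst hT
  have hcard : finrank ℝ (ℝ ∙ w)ᗮ = q + p - 1 := by omega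
  rw [hcard] at hcomp
  have hcp : (0 : ℝ) < ((q + p - 1).choose q : ℝ) := by
    exact_mod_cast Nat.choose_pos (by omega)
  refine ⟨P, hPi, hPF, ?_, ?_⟩
  · refine le_antisymm hle ?_
    exact le_of_mul_le_mul_left (hF.trans hcomp) hcp
  · refine le_antisymm ?_ hF
    exact hcomp.trans (mul_le_mul_of_nonneg_left hle hcp.le)

end

end Pool.Agent.TH999.MV
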